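import Mathlib

/-!
# Extending faithful circuit covers across a 5-circuit with one weight-2 edge

An 18-vertex cubic graph `G` (a Blanusa snark) with an eulerian `{1,2}`-weight `w` and an edge
`e₀` of weight 2 on a 5-circuit whose other four edges have weight 1, such that `(G - e₀, w)` has
a faithful circuit cover and `(G, w)` has none.
-/

namespace Pool.Agent.Results.MP_6dc06d_co.BlanusaCounterexample

/-- `(G, w)` has a faithful circuit cover: there is a finite family of circuits of `G`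
(closed walks that are cycles, indexed by `Fin k`, repetitions allowed) such that every edge `e`
of `G` lies in exactly `w e` members of the family. -/
def FaithfulCover {V : Type*} [DecidableEq V] (G : SimpleGraph V) (w : Sym2 V → ℕ) : Prop :=
  ∃ (k : ℕ) (C : Fin k → Σ v : V, G.Walk v v), (∀ i, (C i).2.IsCycle) ∧
    ∀ e ∈ G.edgeSet, (Finset.univ.filter (fun i => e ∈ (C i).2.edges)).card = w e

/-- next vertex on the two circuits of weight-1 edges -/
def nx : Fin 18 → Fin 18 :=
  ![5, 12, 1, 4, 9, 10, 8, 2, 3, 6, 11, 16, 17, 0, 7, 13, 14, 15]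

/-- previous vertex on the two circuits of weight-1 edges -/
def pv : Fin 18 → Fin 18 :=
  ![13, 2, 7, 8, 3, 0, 9, 14, 6, 4, 5, 10, 1, 15, 16, 17, 11, 12]

/-- the partner in the perfect matching of weight-2 edges -/
def mt : Fin 18 → Fin 18 :=
  ![4, 6, 3, 2, 0, 8, 1, 9, 5, 7, 15, 12, 11, 16, 17, 10, 13, 14]

/-- the graph -/
def G : SimpleGraph (Fin 18) where
  Adj u v := v = nx u ∨ v = pv u ∨ v = mt u
  symm := ⟨by decide⟩
  loopless := ⟨by decide⟩

/-- the weight: `2` on matching edges, `1` on the others -/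
def w : Sym2 (Fin 18) → ℕ :=
  Sym2.lift ⟨fun a b => if b = mt a then 2 else 1, by decide⟩

theorem noCol {α : Type*} (c : Fin 18 → α) (hne : ∀ v, c v ≠ c (pv v))
    (hm : ∀ v, (c v = c (mt v) ∧ c (pv v) = c (pv (mt v))) ∨
      (c v = c (pv (mt v)) ∧ c (pv v) = c (mt v))) : False := by
  have n0 : c 0 ≠ c 13 := hne 0
  have n1 : c 1 ≠ c 2 := hne 1
  have n2 : c 2 ≠ c 7 := hne 2
  have n3 : c 3 ≠ c 8 := hne 3
  have n4 : c 4 ≠ c 3 := hne 4
  have n5 : c 5 ≠ c 0 := hne 5
  have n6 : c 6 ≠ c 9 := hne 6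
  have n7 : c 7 ≠ c 14 := hne 7
  have n8 : c 8 ≠ c 6 := hne 8
  have n9 : c 9 ≠ c 4 := hne 9
  have n10 : c 10 ≠ c 5 := hne 10
  have n11 : c 11 ≠ c 10 := hne 11
  have n12 : c 12 ≠ c 1 := hne 12
  have n13 : c 13 ≠ c 15 := hne 13
  have n14 : c 14 ≠ c 16 := hne 14
  have n15 : c 15 ≠ c 17 := hne 15
  have n16 : c 16 ≠ c 11 := hne 16
  have n17 : c 17 ≠ c 12 := hne 17
  have m0 : (c 0 = c 4 ∧ c 13 = c 3) ∨ (c 0 = c 3 ∧ c 13 = c 4) := hm 0
  have m1 : (c 1 = c 6 ∧ c 2 = c 9) ∨ (c 1 = c 9 ∧ c 2 = c 6) := hm 1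
  have m2 : (c 2 = c 3 ∧ c 7 = c 8) ∨ (c 2 = c 8 ∧ c 7 = c 3) := hm 2
  have m5 : (c 5 = c 8 ∧ c 0 = c 6) ∨ (c 5 = c 6 ∧ c 0 = c 8) := hm 5
  have m7 : (c 7 = c 9 ∧ c 14 = c 4) ∨ (c 7 = c 4 ∧ c 14 = c 9) := hm 7
  have m10 : (c 10 = c 15 ∧ c 5 = c 17) ∨ (c 10 = c 17 ∧ c 5 = c 15) := hm 10
  have m11 : (c 11 = c 12 ∧ c 10 = c 1) ∨ (c 11 = c 1 ∧ c 10 = c 12) := hm 11
  have m13 : (c 13 = c 16 ∧ c 15 = c 11) ∨ (c 13 = c 11 ∧ c 15 = c 16) := hm 13
  have m14 : (c 14 = c 17 ∧ c 16 = c 12) ∨ (c 14 = c 12 ∧ c 16 = c 17) := hm 14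
  clear hne hm
  grind

/-- a circuit through a matching edge at `x` uses one of the two other edges at `x` -/
theorem local_edges {u : Fin 18} (p : G.Walk u u) (hp : p.IsCycle) (x : Fin 18)
    (h : s(x, mt x) ∈ p.edges) : s(x, nx x) ∈ p.edges ∨ s(x, pv x) ∈ p.edges := by
  by_contra hcon
  push Not at hcon
  have hx : x ∈ p.support := p.fst_mem_support_of_mem_edges h
  have h2 := hp.ncard_neighborSet_toSubgraph_eq_two hx
  have hsub : p.toSubgraph.neighborSet x ⊆ {mt x} := by
    intro y hy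
    have hy' : p.toSubgraph.Adj x y := hy
    have hadj : G.Adj x y := hy'.adj_sub
    rw [SimpleGraph.Walk.adj_toSubgraph_iff_mem_edges] at hy'
    rcases hadj with rfl | rfl | rfl
    · exact absurd hy' hcon.1
    · exact absurd hy' hcon.2
    · rfl
  have h3 := Set.ncard_le_ncard hsub (Set.finite_singleton _)
  rw [h2, Set.ncard_singleton] at h3
  omega

theorem no_cover : ¬ FaithfulCover G w := by
  rintro ⟨k, C, hC, hw⟩
  set I : Sym2 (Fin 18) → Finset (Fin k) :=
    fun e => Finset.univ.filter (fun i => e ∈ (C i).2.edges) with hI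
  have h1 : ∀ v, (I s(v, nx v)).card = 1 := by
    intro v
    rw [hI]
    have := hw s(v, nx v) (show G.Adj v (nx v) from Or.inl rfl)
    rw [this]
    clear this
    revert v
    decide
  have h2 : ∀ v, (I s(v, mt v)).card = 2 := by
    intro v
    rw [hI]
    have := hw s(v, mt v) (show G.Adj v (mt v) from Or.inr (Or.inr rfl))
    rw [this]
    clear this
    revert v
    decide
  choose c hc using fun v => Finset.card_eq_one.mp (h1 v)
  have hpv : ∀ v, I s(v, pv v) = {c (pv v)} := by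
    intro v
    rw [← hc (pv v)]
    congr 1
    revert v
    decide
  have hsub : ∀ v, I s(v, mt v) ⊆ {c v, c (pv v)} := by
    intro v i hi
    have hi' : s(v, mt v) ∈ (C i).2.edges := by simpa [hI] using hi
    rcases local_edges (C i).2 (hC i) v hi' with h | h
    · have : i ∈ I s(v, nx v) := by simpa [hI] using h
      rw [hc v] at this
      simp [Finset.mem_singleton.mp this]
    · have : i ∈ I s(v, pv v) := by simpa [hI] using h
      rw [hpv v] at this
      simp [Finset.mem_singleton.mp this]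
  have hne : ∀ v, c v ≠ c (pv v) := by
    intro v hv
    have := Finset.card_le_card (hsub v)
    rw [h2 v, hv] at this
    simp at this
  have heq : ∀ v, I s(v, mt v) = {c v, c (pv v)} := by
    intro v
    refine Finset.eq_of_subset_of_card_le (hsub v) ?_
    rw [h2 v]
    exact Finset.card_le_two
  have hmm : ∀ v, mt (mt v) = v := by decide
  refine noCol c hne ?_
  intro v
  have e1 := heq v
  have e2 := heq (mt v)
  rw [hmm v, Sym2.eq_swap] at e2
  rw [e1] at e2
  have a1 : c v ∈ ({c (mt v), c (pv (mt v))} : Finset (Fin k)) := by rw [← e2]; simp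
  have a2 : c (pv v) ∈ ({c (mt v), c (pv (mt v))} : Finset (Fin k)) := by rw [← e2]; simp
  simp only [Finset.mem_insert, Finset.mem_singleton] at a1 a2
  have n1 := hne v
  rcases a1 with a1 | a1 <;> rcases a2 with a2 | a2
  · exact absurd (a1.trans a2.symm) n1
  · exact Or.inl ⟨a1, a2⟩
  · exact Or.inr ⟨a1, a2⟩
  · exact absurd (a1.trans a2.symm) n1

/-- `G` with the edge `e₀ = {10, 15}` deleted -/
abbrev G' : SimpleGraph (Fin 18) := G.deleteEdges {s(10, 15)}

theorem adj' {u v : Fin 18} (h : (v = nx u ∨ v = pv u ∨ v = mt u) ∧ s(u, v) ≠ s(10, 15)) :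
    G'.Adj u v := by
  rw [SimpleGraph.deleteEdges_adj]
  exact ⟨h.1, by simpa using h.2⟩

/-- first circuit -/
def c1 : G'.Walk 0 0 :=
  .cons (adj' (v := 5) (by decide)) <| .cons (adj' (v := 8) (by decide)) <|
  .cons (adj' (v := 6) (by decide)) <| .cons (adj' (v := 1) (by decide)) <|
  .cons (adj' (v := 2) (by decide)) <| .cons (adj' (v := 3) (by decide)) <|
  .cons (adj' (v := 4) (by decide)) <| .cons (adj' (v := 0) (by decide)) .nil

/-- second circuit -/
def c2 : G'.Walk 2 2 :=
  .cons (adj' (v := 3) (by decide)) <| .cons (adj' (v := 8) (by decide)) <|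
  .cons (adj' (v := 5) (by decide)) <| .cons (adj' (v := 10) (by decide)) <|
  .cons (adj' (v := 11) (by decide)) <| .cons (adj' (v := 12) (by decide)) <|
  .cons (adj' (v := 17) (by decide)) <| .cons (adj' (v := 14) (by decide)) <|
  .cons (adj' (v := 16) (by decide)) <| .cons (adj' (v := 13) (by decide)) <|
  .cons (adj' (v := 0) (by decide)) <| .cons (adj' (v := 4) (by decide)) <|
  .cons (adj' (v := 9) (by decide)) <| .cons (adj' (v := 7) (by decide)) <|
  .cons (adj' (v := 2) (by decide)) .nil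

/-- third circuit -/
def c3 : G'.Walk 1 1 :=
  .cons (adj' (v := 6) (by decide)) <| .cons (adj' (v := 9) (by decide)) <|
  .cons (adj' (v := 7) (by decide)) <| .cons (adj' (v := 14) (by decide)) <|
  .cons (adj' (v := 17) (by decide)) <| .cons (adj' (v := 15) (by decide)) <|
  .cons (adj' (v := 13) (by decide)) <| .cons (adj' (v := 16) (by decide)) <|
  .cons (adj' (v := 11) (by decide)) <| .cons (adj' (v := 12) (by decide)) <|
  .cons (adj' (v := 1) (by decide)) .nil

/-- the 5-circuit `10, 15, 13, 0, 5` of `G` -/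
def c0 : G.Walk 10 10 :=
  .cons (v := 15) (show G.Adj 10 15 by unfold G; decide) <|
  .cons (v := 13) (show G.Adj 15 13 by unfold G; decide) <|
  .cons (v := 0) (show G.Adj 13 0 by unfold G; decide) <|
  .cons (v := 5) (show G.Adj 0 5 by unfold G; decide) <|
  .cons (show G.Adj 5 10 by unfold G; decide) .nil

theorem c1_cycle : c1.IsCycle := by
  rw [SimpleGraph.Walk.isCycle_def]
  exact ⟨⟨by decide⟩, by rintro ⟨⟩, by decide⟩

theorem c2_cycle : c2.IsCycle := by
  rw [SimpleGraph.Walk.isCycle_def]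
  exact ⟨⟨by decide⟩, by rintro ⟨⟩, by decide⟩

theorem c3_cycle : c3.IsCycle := by
  rw [SimpleGraph.Walk.isCycle_def]
  exact ⟨⟨by decide⟩, by rintro ⟨⟩, by decide⟩

theorem c0_cycle : c0.IsCycle := by
  rw [SimpleGraph.Walk.isCycle_def]
  exact ⟨⟨by decide⟩, by rintro ⟨⟩, by decide⟩

/-- the family -/
def fam : Fin 3 → Σ v : Fin 18, G'.Walk v v := ![⟨0, c1⟩, ⟨2, c2⟩, ⟨1, c3⟩]

theorem fam_count : ∀ u v : Fin 18, (v = nx u ∨ v = pv u ∨ v = mt u) → s(u, v) ≠ s(10, 15) →
    (Finset.univ.filter (fun i => s(u, v) ∈ (fam i).2.edges)).card = w s(u, v) := by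
  decide

theorem has_cover : FaithfulCover G' w := by
  refine ⟨3, fam, ?_, ?_⟩
  · intro i
    fin_cases i
    · exact c1_cycle
    · exact c2_cycle
    · exact c3_cycle
  · intro e he
    induction e with
    | _ u v =>
      rw [SimpleGraph.mem_edgeSet, SimpleGraph.deleteEdges_adj] at he
      exact fam_count u v he.1 (by simpa using he.2)

/-- **Disproof of Q1.** There are a cubic graph `G`, an eulerian weight `w : E(G) → {1,2}` and an
edge `e₀` of weight `2` on a circuit `C₀` of length `5` whose other edges all have weight `1`,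
such that `(G - e₀, w)` has a faithful circuit cover but `(G, w)` has none. -/
theorem result : ∃ (G : SimpleGraph (Fin 18)) (w : Sym2 (Fin 18) → ℕ) (e₀ : Sym2 (Fin 18))
    (v₀ : Fin 18) (C₀ : G.Walk v₀ v₀),
    (∀ v, (G.neighborSet v).ncard = 3) ∧
    (∀ e ∈ G.edgeSet, w e = 1 ∨ w e = 2) ∧
    (∀ v, Even (∑ᶠ e ∈ G.incidenceSet v, w e)) ∧
    C₀.IsCycle ∧ C₀.length = 5 ∧ e₀ ∈ C₀.edges ∧ w e₀ = 2 ∧
    (∀ e ∈ C₀.edges, e ≠ e₀ → w e = 1) ∧
    FaithfulCover (G.deleteEdges {e₀}) w ∧ ¬ FaithfulCover G w := by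
  refine ⟨G, w, s(10, 15), 10, c0, ?_, ?_, ?_, c0_cycle, rfl, by decide, by decide, ?_,
    has_cover, no_cover⟩
  · intro v
    have : G.neighborSet v = {nx v, pv v, mt v} := by
      ext y
      rfl
    rw [this]
    have hd : nx v ≠ pv v ∧ nx v ≠ mt v ∧ pv v ≠ mt v := by
      clear this
      revert v
      decide
    rw [Set.ncard_eq_three]
    exact ⟨nx v, pv v, mt v, hd.1, hd.2.1, hd.2.2, rfl⟩
  · intro e he
    induction e with
    | _ u v =>
      have h : v = nx u ∨ v = pv u ∨ v = mt u := he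
      clear he
      revert u v
      decide
  · intro v
    have : G.incidenceSet v = {s(v, nx v), s(v, pv v), s(v, mt v)} := by
      ext e
      constructor
      · rintro ⟨he, hv⟩
        obtain ⟨y, rfl⟩ := hv
        have he' : y = nx v ∨ y = pv v ∨ y = mt v := he
        rcases he' with h | h | h
        · left; rw [h]
        · right; left; rw [h]
        · right; right; rw [h]; rfl
      · rintro (rfl | rfl | rfl)
        · exact ⟨Or.inl rfl, Sym2.mem_mk_left _ _⟩
        · exact ⟨Or.inr (Or.inl rfl), Sym2.mem_mk_left _ _⟩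
        · exact ⟨Or.inr (Or.inr rfl), Sym2.mem_mk_left _ _⟩
    rw [this]
    have hfin : (({s(v, nx v), s(v, pv v), s(v, mt v)} : Set (Sym2 (Fin 18)))) =
        (({s(v, nx v), s(v, pv v), s(v, mt v)} : Finset (Sym2 (Fin 18))) : Set _) := by simp
    rw [hfin, finsum_mem_coe_finset]
    clear this hfin
    revert v
    decide
  · intro e he hne
    have h : e ∈ [s(10, 15), s(15, 13), s(13, 0), s(0, 5), s(5, 10)] := he
    simp only [List.mem_cons, List.not_mem_nil, or_false] at h
    rcases h with rfl | rfl | rfl | rfl | rfl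
    · exact absurd rfl hne
    · decide
    · decide
    · decide
    · decide

end Pool.Agent.Results.MP_6dc06d_co.BlanusaCounterexample
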